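import Pool.Agent.R3B.StmtsB

/-!
# Squad R3B (MP_be01ff_an), row DRB: derivatives in `L²`
-/

set_option autoImplicit false

namespace Pool.Agent.R3B.H20

open Set Filter Topology MeasureTheory InnerProductSpace
open scoped InnerProductSpace ENNReal
open Pool.Agent.BE01F
open Pool.Agent.R3B

/-- convergence in `L²` from uniform convergence -/
theorem nrm_tendsto (nrmH : NrmStmt) (ℓ : ℝ) (hℓ : 0 < ℓ) (F : Filter ℝ) (q : ℝ → ℝ → ℝ)
    (hc : ∀ᶠ s in F, ContinuousOn (q s) (Icc 0 ℓ))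
    (hq : ∀ ε : ℝ, 0 < ε → ∀ᶠ s in F, ∀ r ∈ Icc (0 : ℝ) ℓ, |q s r| ≤ ε) :
    Tendsto (fun s => nrm (Bl ℓ) (rf (q s))) F (𝓝 0) := by
  rw [ENNReal.tendsto_nhds_zero]
  intro e he
  -- a real number
  obtain ⟨η, hη, hηe⟩ : ∃ η : ℝ, 0 < η ∧ ENNReal.ofReal η ≤ e := by
    rcases eq_or_ne e ⊤ with h | h
    · exact ⟨1, one_pos, by rw [h]; exact le_top⟩
    · exact ⟨e.toReal, ENNReal.toReal_pos he.ne' h, by rw [ENNReal.ofReal_toReal h]⟩
  set c : ℝ := Real.sqrt (4 * Real.pi * ℓ) with hcdef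
  have hc0 : 0 < c := Real.sqrt_pos.2 (by positivity)
  filter_upwards [hc, hq (η / c) (by positivity)] with s hs1 hs2
  rw [(nrmH ℓ (q s) hℓ hs1).2]
  refine le_trans (ENNReal.ofReal_le_ofReal ?_) hηe
  rw [show η = Real.sqrt (η ^ 2) by rw [Real.sqrt_sq hη.le]]
  refine Real.sqrt_le_sqrt ?_
  have h1 : ∫ r in (0 : ℝ)..ℓ, q s r ^ 2 ≤ ∫ _r in (0 : ℝ)..ℓ, (η / c) ^ 2 := by
    refine intervalIntegral.integral_mono_on hℓ.le ?_ ?_ ?_
    · refine ContinuousOn.intervalIntegrable ?_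
      rw [uIcc_of_le hℓ.le]
      exact hs1.pow 2
    · exact intervalIntegrable_const
    · intro r hr
      have := hs2 r hr
      rw [← sq_abs]
      exact pow_le_pow_left₀ (abs_nonneg _) this 2
  rw [intervalIntegral.integral_const, sub_zero, smul_eq_mul] at h1
  have h2 : c ^ 2 = 4 * Real.pi * ℓ := Real.sq_sqrt (by positivity)
  calc 4 * Real.pi * ∫ r in (0 : ℝ)..ℓ, q s r ^ 2
      ≤ 4 * Real.pi * (ℓ * (η / c) ^ 2) := by gcongr
    _ = η ^ 2 := by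
      rw [div_pow, h2]
      field_simp

/-- uniform continuity in time -/
theorem unif (ℓ : ℝ) (V : ℝ → ℝ → ℝ)
    (hV : ContinuousOn (fun z : ℝ × ℝ => V z.1 z.2) (Ici 0 ×ˢ Icc 0 ℓ)) (t : ℝ) (ht : 0 ≤ t)
    (ε : ℝ) (hε : 0 < ε) :
    ∃ δ : ℝ, 0 < δ ∧ ∀ s, 0 ≤ s → |s - t| < δ → ∀ r ∈ Icc (0 : ℝ) ℓ, |V s r - V t r| ≤ ε := by
  have hK : IsCompact (Icc (0 : ℝ) (t + 1) ×ˢ Icc (0 : ℝ) ℓ) := isCompact_Icc.prod isCompact_Icc
  have hcont : ContinuousOn (fun z : ℝ × ℝ => V z.1 z.2) (Icc (0 : ℝ) (t + 1) ×ˢ Icc (0 : ℝ) ℓ) :=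
    hV.mono (prod_mono (fun x hx => hx.1) (le_refl _))
  have hu := hK.uniformContinuousOn_of_continuous hcont
  rw [Metric.uniformContinuousOn_iff] at hu
  obtain ⟨δ, hδ, h⟩ := hu ε hε
  refine ⟨min δ 1, lt_min hδ one_pos, fun s hs hst r hr => ?_⟩
  have h1 : |s - t| < δ := lt_of_lt_of_le hst (min_le_left _ _)
  have h2 : |s - t| < 1 := lt_of_lt_of_le hst (min_le_right _ _)
  have h3 : s ≤ t + 1 := by have := (abs_lt.1 h2).2; linarith
  have h4 := h (s, r) ⟨⟨hs, h3⟩, hr⟩ (t, r) ⟨⟨ht, by linarith⟩, hr⟩ (by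
    rw [Prod.dist_eq, dist_self, max_eq_left dist_nonneg, Real.dist_eq]
    exact h1)
  rw [Real.dist_eq] at h4
  exact h4.le

/-- continuity in time at fixed `r` -/
theorem cont_time (ℓ : ℝ) (V : ℝ → ℝ → ℝ)
    (hV : ContinuousOn (fun z : ℝ × ℝ => V z.1 z.2) (Ici 0 ×ˢ Icc 0 ℓ)) (r : ℝ)
    (hr : r ∈ Icc (0 : ℝ) ℓ) (t h : ℝ) (ht : 0 ≤ t) (hh : 0 ≤ h) :
    IntervalIntegrable (fun s => V (t + s) r) volume 0 h := by
  refine ContinuousOn.intervalIntegrable ?_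
  rw [uIcc_of_le hh]
  have h1 : ContinuousOn (fun s : ℝ => ((t + s, r) : ℝ × ℝ)) (Icc 0 h) := by fun_prop
  exact hV.comp h1 fun s hs => ⟨show (0 : ℝ) ≤ t + s by have := hs.1; linarith, hr⟩

/-- continuity in `r` at fixed time -/
theorem cont_r (ℓ : ℝ) (V : ℝ → ℝ → ℝ)
    (hV : ContinuousOn (fun z : ℝ × ℝ => V z.1 z.2) (Ici 0 ×ˢ Icc 0 ℓ)) (t : ℝ) (ht : 0 ≤ t) :
    ContinuousOn (V t) (Icc 0 ℓ) := by
  have h1 : ContinuousOn (fun r : ℝ => ((t, r) : ℝ × ℝ)) (Icc 0 ℓ) := by fun_prop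
  exact hV.comp h1 fun r hr => ⟨ht, hr⟩

/-- the difference quotient, the smaller time first -/
theorem quot (ℓ : ℝ) (w V : ℝ → ℝ → ℝ)
    (hV : ContinuousOn (fun z : ℝ × ℝ => V z.1 z.2) (Ici 0 ×ˢ Icc 0 ℓ))
    (hw : ∀ t h r, 0 ≤ t → 0 ≤ h → 0 ≤ r → r ≤ ℓ →
      w (t + h) r - w t r = ∫ s in (0 : ℝ)..h, V (t + s) r)
    (t : ℝ) (ht : 0 ≤ t) (ε δ : ℝ)
    (hδ : ∀ s, 0 ≤ s → |s - t| < δ → ∀ r ∈ Icc (0 : ℝ) ℓ, |V s r - V t r| ≤ ε)
    (s : ℝ) (hs : 0 ≤ s) (hst : s ≠ t) (hd : |s - t| < δ) (r : ℝ) (hr : r ∈ Icc (0 : ℝ) ℓ) :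
    |(s - t)⁻¹ * (w s r - w t r) - V t r| ≤ ε := by
  -- the case of an interval `[p, p + h]` which contains `t`
  have key : ∀ p h : ℝ, 0 ≤ p → 0 < h → p ≤ t → t ≤ p + h →
      (∀ x ∈ Icc p (p + h), |x - t| < δ) →
      |h⁻¹ * (w (p + h) r - w p r) - V t r| ≤ ε := by
    intro p h hp hh hpt htp hx
    have h1 := cont_time ℓ V hV r hr p h hp hh.le
    have h2 : h⁻¹ * (w (p + h) r - w p r) - V t r =
        h⁻¹ * ∫ x in (0 : ℝ)..h, (V (p + x) r - V t r) := by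
      rw [intervalIntegral.integral_sub h1 intervalIntegrable_const,
        intervalIntegral.integral_const, hw p h r hp hh.le hr.1 hr.2, sub_zero, smul_eq_mul,
        mul_sub, ← mul_assoc, inv_mul_cancel₀ hh.ne', one_mul]
    rw [h2, abs_mul, abs_of_pos (inv_pos.2 hh)]
    have h3 : ‖∫ x in (0 : ℝ)..h, (V (p + x) r - V t r)‖ ≤ ε * |h - 0| := by
      refine intervalIntegral.norm_integral_le_of_norm_le_const fun x hx2 => ?_
      rw [uIoc_of_le hh.le] at hx2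
      rw [Real.norm_eq_abs]
      exact hδ (p + x) (by linarith [hx2.1]) (hx (p + x) ⟨by linarith [hx2.1],
        by linarith [hx2.2]⟩) r hr
    rw [Real.norm_eq_abs, sub_zero, abs_of_pos hh] at h3
    calc h⁻¹ * |∫ x in (0 : ℝ)..h, (V (p + x) r - V t r)| ≤ h⁻¹ * (ε * h) := by gcongr
      _ = ε := by field_simp
  rcases lt_or_gt_of_ne hst with h | h
  · have h1 := key s (t - s) hs (by linarith) h.le (by linarith) (by
      intro x hx
      rw [abs_lt] at hd ⊢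
      constructor
      · linarith [hx.1, hd.1]
      · linarith [hx.2, hd.2, hd.1])
    rw [show s + (t - s) = t by ring] at h1
    have h2 : (s - t)⁻¹ * (w s r - w t r) = (t - s)⁻¹ * (w t r - w s r) := by
      rw [show s - t = -(t - s) by ring, inv_neg]
      ring
    rw [h2]
    exact h1
  · have h1 := key t (s - t) ht (by linarith) le_rfl (by linarith) (by
      intro x hx
      rw [abs_lt] at hd ⊢
      constructor
      · linarith [hx.1, hd.2]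
      · linarith [hx.2, hd.2])
    rw [show t + (s - t) = s by ring] at h1
    exact h1

theorem der_of (nrmH : NrmStmt) (ℓ : ℝ) (hℓ : 0 < ℓ) (w V : ℝ → ℝ → ℝ)
    (hwc : ∀ s, 0 ≤ s → ContinuousOn (w s) (Icc 0 ℓ))
    (hV : ContinuousOn (fun z : ℝ × ℝ => V z.1 z.2) (Ici 0 ×ˢ Icc 0 ℓ))
    (hw : ∀ t h r, 0 ≤ t → 0 ≤ h → 0 ≤ r → r ≤ ℓ →
      w (t + h) r - w t r = ∫ s in (0 : ℝ)..h, V (t + s) r)
    (t : ℝ) (ht : 0 ≤ t) : Der (Bl ℓ) (fun s => rf (w s)) (rf (V t)) t := by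
  have h1 := nrm_tendsto nrmH ℓ hℓ (𝓝[Ici 0 \ {t}] t)
    (fun s r => (s - t)⁻¹ * (w s r - w t r) - V t r) (by
      filter_upwards [self_mem_nhdsWithin] with s hs
      exact (ContinuousOn.mul continuousOn_const ((hwc s hs.1).sub (hwc t ht))).sub
        (cont_r ℓ V hV t ht)) (by
      intro ε hε
      obtain ⟨δ, hδ, h⟩ := unif ℓ V hV t ht ε hε
      have h2 : ∀ᶠ s in 𝓝[Ici 0 \ {t}] t, |s - t| < δ := by
        refine Filter.Eventually.filter_mono nhdsWithin_le_nhds ?_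
        have := Metric.ball_mem_nhds t hδ
        filter_upwards [this] with s hs
        rw [Metric.mem_ball, Real.dist_eq] at hs
        exact hs
      filter_upwards [self_mem_nhdsWithin, h2] with s hs hs2 r hr
      exact quot ℓ w V hV hw t ht ε δ h s hs.1 hs.2 hs2 r hr)
  unfold Der
  refine h1.congr fun s => ?_
  congr 1
  funext x
  simp only [rf]
  ring

/-- Row DRB. -/
theorem drb (nrmH : NrmStmt) : DrbStmt := by
  intro a α ℓ w V Z A B C ha hα hℓ hP t ht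
  have hwc : ∀ s, 0 ≤ s → ContinuousOn (w s) (Icc 0 ℓ) := by
    intro s hs
    have hZ := cont_r ℓ Z hP.cZ s hs
    have h1 : ContinuousOn (fun r => ∫ ρ in (0 : ℝ)..r, Z s ρ) (uIcc 0 ℓ) := by
      refine intervalIntegral.continuousOn_primitive_interval ?_
      rw [uIcc_of_le hℓ.le]
      exact hZ.integrableOn_Icc
    rw [uIcc_of_le hℓ.le] at h1
    exact h1.congr fun r hr => hP.wr s r hs hr.1 hr.2
  refine ⟨der_of nrmH ℓ hℓ w V hwc hP.cV hP.wt t ht,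
    der_of nrmH ℓ hℓ V A (fun s hs => cont_r ℓ V hP.cV s hs) hP.cA hP.Vt t ht, ?_,
    (nrmH ℓ (A t) hℓ (cont_r ℓ A hP.cA t ht)).1, ?_⟩
  · have h1 := nrm_tendsto nrmH ℓ hℓ (𝓝[Ici 0] t) (fun s r => A s r - A t r) (by
      filter_upwards [self_mem_nhdsWithin] with s hs
      exact (cont_r ℓ A hP.cA s hs).sub (cont_r ℓ A hP.cA t ht)) (by
      intro ε hε
      obtain ⟨δ, hδ, h⟩ := unif ℓ A hP.cA t ht ε hε
      have h2 : ∀ᶠ s in 𝓝[Ici 0] t, |s - t| < δ := by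
        refine Filter.Eventually.filter_mono nhdsWithin_le_nhds ?_
        have := Metric.ball_mem_nhds t hδ
        filter_upwards [this] with s hs
        rw [Metric.mem_ball, Real.dist_eq] at hs
        exact hs
      filter_upwards [self_mem_nhdsWithin, h2] with s hs hs2 r hr
      exact h s hs hs2 r hr)
    unfold Ct
    refine h1.congr fun s => ?_
    congr 1
    funext x
    simp only [rf]
    ring
  · obtain ⟨K, hK⟩ := hP.Vb
    refine ⟨|K|, ?_⟩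
    have hm : MeasurableSet (Bl ℓ) := measurableSet_lt measurable_norm measurable_const
    change ∀ᵐ x ∂(volume.restrict (Bl ℓ)), |rf (V t) x| ≤ |K|
    refine ae_restrict_of_forall_mem hm fun x hx => ?_
    have hx' : ‖x‖ < ℓ := hx
    rcases eq_or_lt_of_le (norm_nonneg x) with h0 | h0
    · simp only [rf, ← h0, div_zero, abs_zero]
      exact abs_nonneg K
    · simp only [rf]
      rw [abs_div, abs_of_pos h0, div_le_iff₀ h0]
      exact (hK t ‖x‖ ht h0.le hx'.le).trans (by gcongr; exact le_abs_self K)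

end Pool.Agent.R3B.H20
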